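import Pool.Agent.H629.GC.Stm

set_option autoImplicit false

open MeasureTheory ProbabilityTheory Set Filter
open scoped ENNReal Topology

/-!
# Project GC (helper629): D2 and D3, two far points and one far point
-/

namespace Pool.Agent.H553.GC.D2

open Pool.Agent.H629.GC

theorem ex_add (a b : ℝ) : ex (a + b) = ex a * ex b := by
  unfold ex
  rw [Real.exp_add, ENNReal.ofReal_mul (Real.exp_pos a).le]

theorem ex_zero : ex 0 = 1 := by
  unfold ex
  rw [Real.exp_zero, ENNReal.ofReal_one]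

theorem ex_ne_zero (a : ℝ) : ex a ≠ 0 := by
  unfold ex
  exact (ENNReal.ofReal_pos.mpr (Real.exp_pos a)).ne'

theorem ex_ne_top (a : ℝ) : ex a ≠ ∞ := ENNReal.ofReal_ne_top

theorem ex_mono {a b : ℝ} (h : a ≤ b) : ex a ≤ ex b :=
  ENNReal.ofReal_le_ofReal (Real.exp_le_exp.mpr h)

section lists

theorem list_abs_le {α : Type} (f : α → ℝ) (B : ℝ) : ∀ (L : List α), (∀ a ∈ L, |f a| ≤ B) →
    |(L.map f).sum| ≤ L.length * B := by
  intro L
  induction L with
  | nil => intro _; simp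
  | cons a L ih =>
    intro h
    have h1 := ih (fun b hb => h b (List.mem_cons_of_mem a hb))
    have h2 := h a List.mem_cons_self
    rw [List.map_cons, List.sum_cons, List.length_cons]
    push_cast
    calc |f a + (L.map f).sum| ≤ |f a| + |(L.map f).sum| := abs_add_le _ _
      _ ≤ B + L.length * B := add_le_add h2 h1
      _ = (L.length + 1) * B := by ring

theorem sum_add {α : Type} (f g : α → ℝ) (L : List α) :
    (L.map fun a => f a + g a).sum = (L.map f).sum + (L.map g).sum := by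
  induction L with
  | nil => simp
  | cons a L ih =>
    simp only [List.map_cons, List.sum_cons]
    rw [ih]
    ring

end lists

section

variable {Ω T : Type} [MeasurableSpace Ω] (P : Measure Ω) (X : ℕ → T → Ω → ℝ)

omit [MeasurableSpace Ω] in
theorem W_cons (a : ℝ × T) (L : List (ℝ × T)) (m n : ℕ) (ω : Ω) :
    W X (a :: L) m n ω = W X [a] m n ω * W X L m n ω := by
  unfold W
  rw [← ENNReal.ofReal_mul (Real.exp_pos _).le, ← Real.exp_add]
  simp [ev]

theorem QQ_cons (a : ℝ × T) (L : List (ℝ × T)) (m n : ℕ) :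
    QQ P X (a :: L) m n = QQ P X [a] m n + QQ P X L m n +
      (L.map fun b => a.1 * b.1 * K P X m n a.2 b.2 + b.1 * a.1 * K P X m n b.2 a.2).sum := by
  rw [sum_add]
  unfold QQ
  simp only [List.map_cons, List.sum_cons, List.map_nil, List.sum_nil]
  rw [sum_add]
  ring

/-- the difference of the quadratic forms -/
theorem QQ_diff (a : ℝ × T) (L : List (ℝ × T)) (m n N : ℕ) (Λ C : ℝ) (hΛ : 0 ≤ Λ) (hC : 0 ≤ C)
    (hN : L.length ≤ N) (ha : |a.1| ≤ Λ) (hL : ∀ b ∈ L, |b.1| ≤ Λ)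
    (h1 : ∀ b ∈ L, |K P X m n a.2 b.2| ≤ C) (h2 : ∀ b ∈ L, |K P X m n b.2 a.2| ≤ C) :
    |QQ P X (a :: L) m n - QQ P X L m n - QQ P X [a] m n| ≤ N * (2 * (Λ * Λ * C)) := by
  rw [QQ_cons]
  have h3 : |(L.map fun b => a.1 * b.1 * K P X m n a.2 b.2 + b.1 * a.1 * K P X m n b.2 a.2).sum| ≤
      L.length * (2 * (Λ * Λ * C)) := by
    apply list_abs_le
    intro b hb
    have e1 : |a.1 * b.1 * K P X m n a.2 b.2| ≤ Λ * Λ * C := by
      rw [abs_mul, abs_mul]
      exact mul_le_mul (mul_le_mul ha (hL b hb) (abs_nonneg _) hΛ) (h1 b hb) (abs_nonneg _)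
        (mul_nonneg hΛ hΛ)
    have e2 : |b.1 * a.1 * K P X m n b.2 a.2| ≤ Λ * Λ * C := by
      rw [abs_mul, abs_mul]
      exact mul_le_mul (mul_le_mul (hL b hb) ha (abs_nonneg _) hΛ) (h2 b hb) (abs_nonneg _)
        (mul_nonneg hΛ hΛ)
    calc _ ≤ _ := abs_add_le _ _
      _ ≤ Λ * Λ * C + Λ * Λ * C := add_le_add e1 e2
      _ = 2 * (Λ * Λ * C) := by ring
  have h4 : (L.length : ℝ) * (2 * (Λ * Λ * C)) ≤ N * (2 * (Λ * Λ * C)) :=
    mul_le_mul_of_nonneg_right (by exact_mod_cast hN) (by positivity)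
  refine le_trans (le_of_eq ?_) (h3.trans h4)
  congr 1
  ring

omit [MeasurableSpace Ω] in
theorem S_self (m : ℕ) (x : T) (ω : Ω) : S X m m x ω = 0 := by
  unfold S
  simp

omit [MeasurableSpace Ω] in
theorem W_self (L : List (ℝ × T)) (m : ℕ) (ω : Ω) : W X L m m ω = 1 := by
  unfold W ev
  simp [S_self]

theorem Ph_self [IsProbabilityMeasure P] (L : List (ℝ × T)) (m : ℕ) : Ph P X L m m = 1 := by
  unfold Ph
  simp [W_self]

theorem gh_self [IsProbabilityMeasure P] (β : ℝ) (m : ℕ) (x : T) (ω : Ω) :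
    gh P X β m m x ω = 1 := by
  unfold gh
  rw [W_self, Ph_self, ENNReal.div_self one_ne_zero ENNReal.one_ne_top]

theorem int1 (β : ℝ) (L : List (ℝ × T)) (m n : ℕ) (x : T)
    (hx : Ph P X [(β, x)] m n ≠ 0) :
    ∫⁻ ω, W X L m n ω * gh P X β m n x ω ∂P =
      Ph P X ((β, x) :: L) m n * (Ph P X [(β, x)] m n)⁻¹ := by
  have h : ∀ ω, W X L m n ω * gh P X β m n x ω =
      W X ((β, x) :: L) m n ω * (Ph P X [(β, x)] m n)⁻¹ := by
    intro ω
    rw [W_cons X (β, x) L]
    unfold gh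
    rw [ENNReal.div_eq_inv_mul]
    ring
  simp_rw [h]
  rw [lintegral_mul_const' _ _ (ENNReal.inv_ne_top.mpr hx)]
  rfl

theorem int2 (β : ℝ) (L : List (ℝ × T)) (m n : ℕ) (x y : T)
    (hx : Ph P X [(β, x)] m n ≠ 0) (hy : Ph P X [(β, y)] m n ≠ 0) :
    ∫⁻ ω, W X L m n ω * gh P X β m n x ω * gh P X β m n y ω ∂P =
      Ph P X ((β, x) :: (β, y) :: L) m n * (Ph P X [(β, x)] m n)⁻¹ *
        (Ph P X [(β, y)] m n)⁻¹ := by
  have h : ∀ ω, W X L m n ω * gh P X β m n x ω * gh P X β m n y ω =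
      W X ((β, x) :: (β, y) :: L) m n ω * (Ph P X [(β, x)] m n)⁻¹ *
        (Ph P X [(β, y)] m n)⁻¹ := by
    intro ω
    rw [W_cons X (β, x), W_cons X (β, y) L]
    unfold gh
    rw [ENNReal.div_eq_inv_mul, ENNReal.div_eq_inv_mul]
    ring
  simp_rw [h]
  rw [lintegral_mul_const' _ _ (ENNReal.inv_ne_top.mpr hy),
    lintegral_mul_const' _ _ (ENNReal.inv_ne_top.mpr hx)]
  rfl

end

section

variable {Ω T : Type} [MeasurableSpace Ω] [MetricSpace T] {P : Measure Ω} {X : ℕ → T → Ω → ℝ}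
  {Q : Set T} {s : ℕ → ℝ}

/-- one step: the constants -/
theorem stepP (h : Chaos P X Q s) (β : ℝ) (N : ℕ) (Λ c : ℝ) (hc : 0 < c) :
    ∃ C : ℝ, 0 ≤ C ∧ ∀ (L : List (ℝ × T)) (m n : ℕ) (x : T), m ≤ n → Adm Q N Λ L → x ∈ Q →
      Far c (s m) L {x} →
      Ph P X [(β, x)] m n ≠ 0 ∧ Ph P X [(β, x)] m n ≠ ∞ ∧
      Ph P X ((β, x) :: L) m n ≤ ex C * (Ph P X [(β, x)] m n * Ph P X L m n) ∧
      ex (-C) * (Ph P X [(β, x)] m n * Ph P X L m n) ≤ Ph P X ((β, x) :: L) m n := by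
  obtain ⟨C1, hC1⟩ := h.mp (N + 1) (max (max Λ |β|) 0)
  obtain ⟨C2, hC2⟩ := h.far c hc
  set Λ' : ℝ := max (max Λ |β|) 0 with hΛ'
  set C2' : ℝ := max C2 0 with hC2'
  set E : ℝ := N * (2 * (Λ' * Λ' * C2')) with hE
  have hΛ0 : 0 ≤ Λ' := le_max_right _ _
  have hΛ1 : Λ ≤ Λ' := le_trans (le_max_left _ _) (le_max_left _ _)
  have hΛ2 : |β| ≤ Λ' := le_trans (le_max_right _ _) (le_max_left _ _)
  have hC20 : 0 ≤ C2' := le_max_right _ _
  have hE0 : 0 ≤ E := by positivity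
  refine ⟨max (E / 2 + 3 * C1) 0, le_max_right _ _, ?_⟩
  intro L m n x hmn hL hx hF
  have aL : Adm Q (N + 1) Λ' L :=
    ⟨hL.len.trans (Nat.le_succ N), fun a ha => (hL.wt a ha).trans hΛ1, hL.pt⟩
  have ax : Adm Q (N + 1) Λ' [(β, x)] := by
    refine ⟨by simp, ?_, ?_⟩
    · intro a ha
      rw [List.mem_singleton] at ha
      subst ha
      exact hΛ2
    · intro a ha
      rw [List.mem_singleton] at ha
      subst ha
      exact hx
  have axL : Adm Q (N + 1) Λ' ((β, x) :: L) := by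
    refine ⟨by rw [List.length_cons]; exact Nat.succ_le_succ hL.len, ?_, ?_⟩
    · intro a ha
      rcases List.mem_cons.mp ha with rfl | ha
      · exact hΛ2
      · exact aL.wt a ha
    · intro a ha
      rcases List.mem_cons.mp ha with rfl | ha
      · exact hx
      · exact aL.pt a ha
  obtain ⟨l1, u1⟩ := hC1 L m n aL hmn
  obtain ⟨l2, u2⟩ := hC1 _ m n ax hmn
  obtain ⟨l3, u3⟩ := hC1 _ m n axL hmn
  have hd := QQ_diff P X (β, x) L m n N Λ' C2' hΛ0 hC20 hL.len hΛ2 aL.wt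
    (fun b hb => (hC2 m n x b.2 hmn hx (hL.pt b hb) (by
      have := hF b hb x rfl
      rwa [dist_comm])).trans (le_max_left _ _))
    (fun b hb => (hC2 m n b.2 x hmn (hL.pt b hb) hx (hF b hb x rfl)).trans (le_max_left _ _))
  rw [← hE] at hd
  obtain ⟨d1, d2⟩ := abs_le.mp hd
  refine ⟨fun h0 => ex_ne_zero _ (le_zero_iff.mp (h0 ▸ l2)), fun h0 => ex_ne_top _
    (top_le_iff.mp (h0 ▸ u2)), ?_, ?_⟩
  · calc Ph P X ((β, x) :: L) m n ≤ ex (QQ P X ((β, x) :: L) m n / 2 + C1) := u3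
      _ ≤ ex ((E / 2 + 3 * C1) + ((QQ P X [(β, x)] m n / 2 - C1) +
          (QQ P X L m n / 2 - C1))) := ex_mono (by linarith)
      _ = ex (E / 2 + 3 * C1) * (ex (QQ P X [(β, x)] m n / 2 - C1) *
          ex (QQ P X L m n / 2 - C1)) := by rw [ex_add (E / 2 + 3 * C1), ex_add (_ / 2 - C1)]
      _ ≤ _ := by
        gcongr
        exact ex_mono (le_max_left _ _)
  · calc ex (-max (E / 2 + 3 * C1) 0) * (Ph P X [(β, x)] m n * Ph P X L m n) ≤
          ex (-(E / 2 + 3 * C1)) * (ex (QQ P X [(β, x)] m n / 2 + C1) *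
            ex (QQ P X L m n / 2 + C1)) :=
        mul_le_mul' (ex_mono (neg_le_neg (le_max_left _ _))) (mul_le_mul' u2 u1)
      _ = ex (-(E / 2 + 3 * C1) + ((QQ P X [(β, x)] m n / 2 + C1) +
          (QQ P X L m n / 2 + C1))) := by rw [ex_add (-(E / 2 + 3 * C1)), ex_add (_ / 2 + C1)]
      _ ≤ ex (QQ P X ((β, x) :: L) m n / 2 - C1) := ex_mono (by linarith)
      _ ≤ _ := l3

end

theorem t_D3 : S_C3 → S_D3 := by
  intro _ Ω T _ _ P X Q s h β N Λ c hc
  have := h.prob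
  obtain ⟨C, hC0, hC⟩ := stepP h β N Λ c hc
  refine ⟨C, ?_⟩
  intro L m n x hmn hL hx hF
  have h1 : (1 : ℝ≥0∞) ≤ ex C := by
    rw [← ex_zero]
    exact ex_mono hC0
  rcases hF with rfl | hF
  · constructor
    · simp_rw [W_self, gh_self, Ph_self]
      simp [h1]
    · simp_rw [Ph_self]
      simp [h1]
  · obtain ⟨a1, a2, a3, a4⟩ := hC L m n x hmn hL hx hF
    refine ⟨?_, a3⟩
    rw [int1 P X β L m n x a1]
    calc Ph P X ((β, x) :: L) m n * (Ph P X [(β, x)] m n)⁻¹ ≤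
        ex C * (Ph P X [(β, x)] m n * Ph P X L m n) * (Ph P X [(β, x)] m n)⁻¹ := by gcongr
      _ = ex C * Ph P X L m n * (Ph P X [(β, x)] m n * (Ph P X [(β, x)] m n)⁻¹) := by ring
      _ = ex C * Ph P X L m n := by rw [ENNReal.mul_inv_cancel a1 a2, mul_one]

theorem t_D2 : S_C3 → S_D2 := by
  intro _ Ω T _ _ P X Q s h β N Λ c hc
  have := h.prob
  obtain ⟨C, hC0, hC⟩ := stepP h β N Λ c hc
  obtain ⟨C', hC0', hC'⟩ := stepP h β (N + 1) (max Λ |β|) c hc
  refine ⟨C + C', ?_⟩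
  intro L m n x y hmn hL hx hy hF
  rcases hF with rfl | ⟨hxy, hFx, hFy⟩
  · simp_rw [W_self, gh_self, Ph_self]
    simp only [mul_one, lintegral_const, measure_univ]
    constructor
    · rw [← ex_zero]
      exact ex_mono (by linarith)
    · rw [← ex_zero]
      exact ex_mono (by linarith)
  · obtain ⟨a1, a2, a3, a4⟩ := hC L m n y hmn hL hy hFy
    have hyL : Adm Q (N + 1) (max Λ |β|) ((β, y) :: L) := by
      refine ⟨by rw [List.length_cons]; exact Nat.succ_le_succ hL.len, ?_, ?_⟩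
      · intro a ha
        rcases List.mem_cons.mp ha with rfl | ha
        · exact le_max_right _ _
        · exact (hL.wt a ha).trans (le_max_left _ _)
      · intro a ha
        rcases List.mem_cons.mp ha with rfl | ha
        · exact hy
        · exact hL.pt a ha
    have hFyL : Far c (s m) ((β, y) :: L) {x} := by
      intro a ha z hz
      rcases List.mem_cons.mp ha with rfl | ha
      · rw [mem_singleton_iff] at hz
        subst hz
        rw [dist_comm]
        exact hxy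
      · exact hFx a ha z hz
    obtain ⟨b1, b2, b3, b4⟩ := hC' _ m n x hmn hyL hx hFyL
    rw [int2 P X β L m n x y b1 a1]
    set px := Ph P X [(β, x)] m n with hpx
    set py := Ph P X [(β, y)] m n with hpy
    set pL := Ph P X L m n with hpL
    set pyL := Ph P X ((β, y) :: L) m n with hpyL
    set pxyL := Ph P X ((β, x) :: (β, y) :: L) m n with hpxyL
    have key : ∀ u v : ℝ≥0∞, u * (px * (v * (py * pL))) * px⁻¹ * py⁻¹ = u * v * pL := by
      intro u v
      calc u * (px * (v * (py * pL))) * px⁻¹ * py⁻¹ =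
          u * v * pL * (px * px⁻¹) * (py * py⁻¹) := by ring
        _ = u * v * pL := by
          rw [ENNReal.mul_inv_cancel b1 b2, ENNReal.mul_inv_cancel a1 a2, mul_one, mul_one]
    constructor
    · calc ex (-(C + C')) * pL = ex (-C') * ex (-C) * pL := by
            rw [← ex_add]
            congr 2
            ring
        _ = ex (-C') * (px * (ex (-C) * (py * pL))) * px⁻¹ * py⁻¹ := (key _ _).symm
        _ ≤ ex (-C') * (px * pyL) * px⁻¹ * py⁻¹ := by gcongr
        _ ≤ pxyL * px⁻¹ * py⁻¹ := by gcongr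
    · calc pxyL * px⁻¹ * py⁻¹ ≤ ex C' * (px * pyL) * px⁻¹ * py⁻¹ := by gcongr
        _ ≤ ex C' * (px * (ex C * (py * pL))) * px⁻¹ * py⁻¹ := by gcongr
        _ = ex C' * ex C * pL := key _ _
        _ = ex (C + C') * pL := by
            rw [← ex_add]
            congr 2
            ring

end Pool.Agent.H553.GC.D2
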